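import Mathlib
import Pool.Agent.Lib_helper54.RS.Defs

/-!
# Galois representations attached to Satake polynomials: definitions (MP_ef641d_nt)
-/

set_option autoImplicit false

namespace Pool.Agent.DS

open Polynomial NumberField

/-- An algebraic closure of `ℚ`. -/
abbrev Qbar : Type := AlgebraicClosure ℚ

/-- The absolute Galois group of `ℚ` (with the Krull topology). -/
abbrev GQ : Type := Qbar ≃ₐ[ℚ] Qbar

/-- `σ` induces `x ↦ x^m` modulo the ideal `𝔓` of the ring of algebraic integers of `F`.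
If `𝔓` is a prime above `p`, this says for `m = p` that `σ` is an arithmetic Frobenius element
at `𝔓`, and for `m = 1` that `σ` lies in the inertia group of `𝔓`. -/
def Induces {F : Type} [Field F] [Algebra ℚ F] (𝔓 : Ideal (𝓞 F)) (m : ℕ) (σ : F ≃ₐ[ℚ] F) : Prop :=
  ∀ x y : 𝓞 F, (y : F) = σ x → y - x ^ m ∈ 𝔓

/-- `ρ` corresponds to the polynomial `f` at the prime `p`: at every prime `𝔓` above `p` the
inertia group acts trivially, and `f` is the characteristic polynomial of the geometric Frobenius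
elements (the inverses of the arithmetic ones). -/
def AttachedAt {n : ℕ} {k : Type} [Field k] (ρ : GQ →* GL (Fin n) k) (p : ℕ) (f : k[X]) : Prop :=
  ∀ 𝔓 : Ideal (𝓞 Qbar), 𝔓.IsPrime → (p : 𝓞 Qbar) ∈ 𝔓 →
    (∀ σ : GQ, Induces 𝔓 1 σ → ρ σ = 1) ∧
    (∀ σ : GQ, Induces 𝔓 p σ →
      (((ρ σ)⁻¹ : GL (Fin n) k) : Matrix (Fin n) (Fin n) k).charpoly = f)

/-- `ρ` is semisimple: every invariant subspace has an invariant complement. -/
def Semisimple {n : ℕ} {k : Type} [Field k] {G : Type} [Group G] (ρ : G →* GL (Fin n) k) : Prop :=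
  ∀ W : Submodule k (Fin n → k),
    (∀ g : G, ∀ v ∈ W, (ρ g : Matrix (Fin n) (Fin n) k).mulVec v ∈ W) →
    ∃ W' : Submodule k (Fin n → k),
      (∀ g : G, ∀ v ∈ W', (ρ g : Matrix (Fin n) (Fin n) k).mulVec v ∈ W') ∧ IsCompl W W'

/-- The number of elements `x` of `𝓞 K` such that the mean of `|τ x|^2` over the complex
embeddings `τ` of `K` is at most `B`. -/
noncomputable def smallCard (K : Type) [Field K] [NumberField K] (B : ℝ) : ℕ :=
  Nat.card {x : 𝓞 K // ∑ τ : K →+* ℂ, ‖τ x‖ ^ 2 ≤ B * Fintype.card (K →+* ℂ)}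

/-! ### Auxiliary definitions -/

/-- The number of ideals of norm `n`. -/
noncomputable def aE (E : Type) [Field E] [NumberField E] (n : ℕ) : ℕ :=
  Nat.card {I : Ideal (𝓞 E) // Ideal.absNorm I = n}

/-- The sum of `a_E(p) χ(p) p^{-s}` over the primes. -/
noncomputable def SS (E : Type) [Field E] [NumberField E] {q : ℕ} (χ : DirichletCharacter ℂ q)
    (s : ℝ) : ℂ :=
  ∑' p : Nat.Primes, (aE E p : ℂ) * χ (p : ℕ) * ((p : ℕ) : ℂ) ^ (-(s : ℂ))

/-- The Dirichlet series `∑ a_E(n) χ(n) n^{-s}`. -/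
noncomputable def LL (E : Type) [Field E] [NumberField E] {q : ℕ} (χ : DirichletCharacter ℂ q)
    (s : ℝ) : ℂ :=
  LSeries (fun n : ℕ => (aE E n : ℂ) * χ (n : ZMod q)) s

/-- The set of the primes `p` such that the Frobenius elements at all primes `𝔓` of `Qbar` above
`p` lie in `S`. -/
def FrobIn (S : Set GQ) : Set ℕ :=
  {p : ℕ | ∀ 𝔓 : Ideal (𝓞 Qbar), 𝔓.IsPrime → (p : 𝓞 Qbar) ∈ 𝔓 →
    ∀ σ : GQ, Induces 𝔓 p σ → σ ∈ S}

/-- The set of the primes `p` with a prime `𝔓` of `F` above `p` that is unramified over `ℚ` and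
has the Frobenius element `σ`. -/
def FrobNF {F : Type} [Field F] [Algebra ℚ F] (σ : F ≃ₐ[ℚ] F) : Set ℕ :=
  {p : ℕ | p.Prime ∧ ∃ 𝔓 : Ideal (𝓞 F), 𝔓.IsPrime ∧ (p : 𝓞 F) ∈ 𝔓 ∧ Induces 𝔓 p σ ∧
    ∀ τ : F ≃ₐ[ℚ] F, Induces 𝔓 1 τ → τ = 1}

end Pool.Agent.DS
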